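import Mathlib
set_option autoImplicit false

/-!
# Bend numbers of graphs of bounded simple treewidth (MP_0ca7b7_co)

The notions of the problem (grid paths, bends, EPG representations, simple k-trees,
simple treewidth) are in Pool.Agent.Lib_helper32.EPG.Top.  Here: the rational model used in the
proof.
-/

namespace Pool.Agent.BN

/-! ## Part 1: rectilinear lists of points over `ℚ` -/

abbrev Pt := ℚ × ℚ

/-- `(x, y)` is an interior point of a horizontal segment of the polyline -/
def HOn : List Pt → ℚ → ℚ → Prop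
  | p :: q :: l, x, y =>
      (p.2 = y ∧ q.2 = y ∧ min p.1 q.1 < x ∧ x < max p.1 q.1) ∨ HOn (q :: l) x y
  | _, _, _ => False

/-- `(x, y)` is an interior point of a vertical segment of the polyline -/
def VOn : List Pt → ℚ → ℚ → Prop
  | p :: q :: l, x, y =>
      (p.1 = x ∧ q.1 = x ∧ min p.2 q.2 < y ∧ y < max p.2 q.2) ∨ VOn (q :: l) x y
  | _, _, _ => False

/-- the two polylines run together for a while -/
def Touch (p q : List Pt) : Prop := ∃ x y, (HOn p x y ∧ HOn q x y) ∨ (VOn p x y ∧ VOn q x y)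

/-- strictly descending rectilinear lists of points -/
def YDec {α : Type} [LinearOrder α] : List (α × α) → Prop
  | p :: q :: r :: l => (p.1 = q.1 ∨ p.2 = q.2) ∧ q.2 ≤ p.2 ∧ r.2 < p.2 ∧ YDec (q :: r :: l)
  | [p, q] => (p.1 = q.1 ∨ p.2 = q.2) ∧ q.2 ≤ p.2
  | _ => True

/-- the eight symmetries: first sign changes, then (perhaps) exchange of the coordinates -/
def act {α : Type} [Neg α] (s : Bool × Bool × Bool) (p : α × α) : α × α :=
  let x := if s.1 then -p.1 else p.1
  let y := if s.2.1 then -p.2 else p.2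
  if s.2.2 then (y, x) else (x, y)

/-- strictly monotone in one of the four directions -/
def Mono {α : Type} [LinearOrder α] [Neg α] (p : List (α × α)) : Prop :=
  ∃ s : Bool × Bool × Bool, YDec (p.map (act s))

/-- An active clique `K` with its window `[a1,a2] × [b1,b2]`, the heights of the rows and the
abscissas of the columns of its members, and a ghost `q ++ [c, tl]`: a reserved start (`q ++ [c]`,
touching exactly the members of `S`) followed by a free segment `[c, tl]`. -/
structure Act (V : Type) where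
  K : Finset V
  a1 : ℚ
  a2 : ℚ
  b1 : ℚ
  b2 : ℚ
  row : V → ℚ
  col : V → ℚ
  q : List Pt
  c : Pt
  tl : Pt
  S : Finset V

namespace Act
variable {V : Type}

/-- the whole ghost -/
def g (A : Act V) : List Pt := A.q ++ [A.c, A.tl]

/-- no vertical segment in the strip over `[a1,a2]`, no horizontal one in the strip `[b1,b2]` -/
def Clear (A : Act V) (p : List Pt) : Prop :=
  (∀ x y, A.a1 ≤ x → x ≤ A.a2 → ¬ VOn p x y) ∧ (∀ x y, A.b1 ≤ y → y ≤ A.b2 → ¬ HOn p x y)

/-- `p` covers the row and the column of `w` -/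
def Own (A : Act V) (w : V) (p : List Pt) : Prop :=
  (∀ x, A.a1 ≤ x → x ≤ A.a2 → HOn p x (A.row w)) ∧ (∀ y, A.b1 ≤ y → y ≤ A.b2 → VOn p (A.col w) y)

/-- `p` does not touch the row and the column of `w` -/
def Excl (A : Act V) (w : V) (p : List Pt) : Prop :=
  (∀ x, A.a1 ≤ x → x ≤ A.a2 → ¬ HOn p x (A.row w)) ∧
    (∀ y, A.b1 ≤ y → y ≤ A.b2 → ¬ VOn p (A.col w) y)

def Sep (A B : Act V) : Prop := (A.a2 < B.a1 ∨ B.a2 < A.a1) ∧ (A.b2 < B.b1 ∨ B.b2 < A.b1)

/-- reflection `x ↦ -x` -/
def nx (A : Act V) : Act V :=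
  { K := A.K, a1 := -A.a2, a2 := -A.a1, b1 := A.b1, b2 := A.b2, row := A.row,
    col := fun w => -A.col w, q := A.q.map (act (true, false, false)),
    c := act (true, false, false) A.c, tl := act (true, false, false) A.tl, S := A.S }

/-- reflection `y ↦ -y` -/
def ny (A : Act V) : Act V :=
  { K := A.K, a1 := A.a1, a2 := A.a2, b1 := -A.b2, b2 := -A.b1, row := fun w => -A.row w,
    col := A.col, q := A.q.map (act (false, true, false)),
    c := act (false, true, false) A.c, tl := act (false, true, false) A.tl, S := A.S }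

/-- exchange of the coordinates -/
def sw (A : Act V) : Act V :=
  { K := A.K, a1 := A.b1, a2 := A.b2, b1 := A.a1, b2 := A.a2, row := A.col, col := A.row,
    q := A.q.map (act (false, false, true)),
    c := act (false, false, true) A.c, tl := act (false, false, true) A.tl, S := A.S }

/-- the eight symmetries on windows -/
def acts (s : Bool × Bool × Bool) (A : Act V) : Act V :=
  let A1 := if s.1 then A.nx else A
  let A2 := if s.2.1 then A1.ny else A1
  if s.2.2 then A2.sw else A2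

/-- the ghost is in standard position: it starts on the rows of `α` (upper) and `β` (lower) above
the window, to the left of the window, and descends at `xs`; the member `ω` has not been touched
and has its column to the right of the window. -/
def StdFull (A : Act V) : Prop :=
  ∃ (x0 x1 xs e : ℚ) (α β ω : V),
    A.q = [(x0, A.row α), (x1, A.row α), (x1, A.row β)] ∧ A.c = (xs, A.row β) ∧ A.tl = (xs, e) ∧
    xs < A.a1 ∧ e < A.b1 ∧ A.b2 < A.row β ∧ A.row β < A.row α ∧
    α ∈ A.S ∧ β ∈ A.S ∧ A.S ⊆ A.K ∧ A.S.card = 3 ∧ ω ∈ A.K ∧ ω ∉ A.S ∧ A.a2 < A.col ω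

def Full (A : Act V) : Prop := ∃ s, StdFull (A.acts s)

end Act

open Act

/-- a drawing of the vertices in `D` with active windows `L`; `G` is the graph to be represented,
the vertices with `ph` are auxiliary (their number of bends does not matter) -/
structure Geo {V : Type} (G : SimpleGraph V) (ph : V → Prop) (k : ℕ) (D : Finset V)
    (P : V → List Pt) (L : List (Act V)) : Prop where
  touch_iff : ∀ u ∈ D, ∀ v ∈ D, u ≠ v → (Touch (P u) (P v) ↔ G.Adj u v)
  path_ok : ∀ v ∈ D, ¬ ph v → Mono (P v) ∧ 3 ≤ (P v).length ∧ (P v).length ≤ 2 * k - 1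
  win : ∀ A ∈ L, A.a1 < A.a2 ∧ A.b1 < A.b2 ∧ A.K ⊆ D ∧ A.K.card = k ∧ A.S ⊆ A.K
  clearP : ∀ A ∈ L, ∀ v ∈ D, A.Clear (P v)
  clearG : ∀ A ∈ L, ∀ B ∈ L, A.Clear B.g
  own : ∀ A ∈ L, ∀ w ∈ A.K, A.Own w (P w)
  exclP : ∀ A ∈ L, ∀ w ∈ A.K, ∀ v ∈ D, v ≠ w → A.Excl w (P v)
  exclG : ∀ A ∈ L, ∀ w ∈ A.K, ∀ B ∈ L, A.Excl w B.g
  sep : L.Pairwise Sep
  ghost_touch : ∀ A ∈ L, ∀ v ∈ D, (Touch (A.q ++ [A.c]) (P v) ↔ v ∈ A.S)
  ghost_free : ∀ A ∈ L, ∀ v ∈ D, ¬ Touch [A.c, A.tl] (P v)
  ghost_sep : L.Pairwise (fun A B => ¬ Touch A.g B.g)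

/-- the output of one step: `y` has been drawn in the window `A`, the new windows belong to the
cliques `A.K - t + y`, `t ∈ ts` -/
def StepOut {V : Type} [DecidableEq V] (G : SimpleGraph V) (ph : V → Prop) (k : ℕ)
    (D : Finset V) (A : Act V) (L : List (Act V)) (y : V) (ts : List V) : Prop :=
  ∃ (P' : V → List Pt) (L' : List (Act V)), Geo G ph k (insert y D) P' L' ∧
    (∀ B ∈ L', B.Full) ∧
    L'.map Act.K = ts.map (fun t => insert y (A.K.erase t)) ++ L.map Act.K

/-! ## Part 2: drawing one vertex -/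

/-- the descending part: vertical at `γ j` from `h j` to `h (j+1)` -/
def vg : (ℕ → ℚ) → (ℕ → ℚ) → ℕ → List Pt
  | _, _, 0 => []
  | γ, h, n + 1 => (γ 0, h 0) :: (γ 0, h 1) :: vg (fun i => γ (i + 1)) (fun i => h (i + 1)) n

/-- abscissa from which the horizontal segment at height `h j` comes -/
def prev (γ : ℕ → ℚ) (xs : ℚ) (j : ℕ) : ℚ := if j = 0 then xs else γ (j - 1)

/-- the path of the new vertex -/
def zpath {V : Type} (A : Act V) (γ h : ℕ → ℚ) (n : ℕ) : List Pt :=
  A.q ++ [A.c, (A.c.1, h 0)] ++ vg γ h n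

/-- request for a new window: the member `t` is dropped; the new ghost uses the columns of `F`
(far) and `N` (near) at the level of the `j`-th vertical segment of the new path;
`cr`: its horizontal segment runs along the horizontal segment at height `h j` of the new path -/
structure Req (V : Type) where
  t : V
  F : V
  N : V
  j : ℕ
  cr : Bool

/-- choice of coordinates inside a window -/
structure Crd {V : Type} (A : Act V) where
  f : ℕ → ℚ
  h : ℕ → ℚ
  w : ℕ → ℚ
  z : ℕ → ℕ → ℚ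
  hf : StrictMono f
  hf1 : ∀ i, A.a1 < f i
  hf2 : ∀ i, f i < A.a2
  hh : StrictAnti h
  hh1 : ∀ j, A.b1 < h j
  hw : StrictMono w
  hw1 : ∀ i, h 0 < w i
  hw2 : ∀ i, w i < A.b2
  hz : ∀ j, StrictMono (z j)
  hz1 : ∀ j i, h (j + 1) < z j i
  hz2 : ∀ j i, z j i < h j

variable {V : Type}

/-- height of the horizontal connector of the new ghost -/
def y1 {A : Act V} (c : Crd A) (q : Req V) (r : ℕ) : ℚ := if q.cr then c.h q.j else c.z q.j (3 * r + 1)

/-- end of the free segment of the new ghost -/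
noncomputable def ex {A : Act V} (c : Crd A) (q : Req V) (r : ℕ) : ℚ :=
  if A.a2 < A.col q.N then c.f (4 * r + 1) else c.f (4 * r + 4)

/-- the new window number `r` -/
noncomputable def newAct [DecidableEq V] (A : Act V) (c : Crd A) (y : V) (q : Req V) (r : ℕ) : Act V :=
  { K := insert y (A.K.erase q.t)
    a1 := c.f (4 * r + 2)
    a2 := c.f (4 * r + 3)
    b1 := c.w (2 * r)
    b2 := c.w (2 * r + 1)
    row := Function.update A.row y (c.h 0)
    col := Function.update A.col y A.c.1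
    q := [(A.col q.F, c.z q.j (3 * r)), (A.col q.F, y1 c q r), (A.col q.N, y1 c q r)]
    c := (A.col q.N, c.z q.j (3 * r + 2))
    tl := (ex c q r, c.z q.j (3 * r + 2))
    S := {q.F, q.N, y} }

noncomputable def newActs [DecidableEq V] (A : Act V) (c : Crd A) (y : V) (rq : ℕ → Req V) (M : ℕ) :
    List (Act V) := (List.range M).map (fun r => newAct A c y (rq r) r)

/-- the ghost is in a (weak) standard position -/
structure StdStart (A : Act V) : Prop where
  tlx : A.tl.1 = A.c.1
  left : A.c.1 < A.a1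
  up : A.b2 < A.c.2
  low : A.tl.2 < A.b1
  dec : YDec (A.q ++ [A.c, A.tl])

/-- the abscissas `γ j` (`j < n`) are columns of members, the private abscissa `f 0`, or `R` -/
structure GamOK (A : Act V) (c : Crd A) (γ : ℕ → ℚ) (n : ℕ) (R : ℚ) : Prop where
  pos : 0 < n
  first : A.a2 < γ 0
  kind : ∀ j < n, (∃ w ∈ A.K, γ j = A.col w) ∨ γ j = c.f 0 ∨ γ j = R

/-- `R` is a free abscissa to the right of everything -/
structure FarR (D : Finset V) (P : V → List Pt) (L : List (Act V)) (R : ℚ) : Prop where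
  p : ∀ v ∈ D, ∀ x y, VOn (P v) x y → x < R
  g : ∀ B ∈ L, ∀ x y, VOn B.g x y → x < R
  a : ∀ B ∈ L, B.a2 < R

/-- the request `q` (number `r`) is admissible -/
structure ReqOK (A : Act V) (γ : ℕ → ℚ) (n : ℕ) (q : Req V) : Prop where
  t : q.t ∈ A.K
  F : q.F ∈ A.K
  N : q.N ∈ A.K
  FN : q.F ≠ q.N
  Ft : q.F ≠ q.t
  Nt : q.N ≠ q.t
  j : q.j < n
  side : (A.a2 < A.col q.N ∧ A.col q.N < A.col q.F) ∨ (A.col q.F < A.col q.N ∧ A.col q.N < A.a1)
  r2 : q.cr = false → γ q.j = A.col q.F ∨ γ q.j = A.col q.N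
  cr : q.cr = true → γ q.j ≠ A.col q.F ∧ γ q.j ≠ A.col q.N ∧ A.a2 < A.col q.N ∧
    ((prev γ A.c.1 q.j ≤ A.a2 ∧ A.col q.F < γ q.j) ∨ (γ q.j ≤ A.a2 ∧ A.col q.F < prev γ A.c.1 q.j))

/-- the requests `q`, `q'` are compatible -/
def ReqCompat (A : Act V) (q q' : Req V) : Prop :=
  q.j = q'.j → q.cr = q'.cr ∧
    (q.cr = true → A.col q.F < A.col q'.N ∨ A.col q'.F < A.col q.N)

/-- all hypotheses for drawing `y` in the window `A` -/
structure Core [DecidableEq V] (G : SimpleGraph V) (ph : V → Prop) (k : ℕ) (D : Finset V)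
    (P : V → List Pt) (A : Act V) (L : List (Act V)) (c : Crd A) (γ : ℕ → ℚ) (n : ℕ) (R : ℚ)
    (y : V) (rq : ℕ → Req V) (M : ℕ) : Prop where
  geo : Geo G ph k D P (A :: L)
  std : StdStart A
  yD : y ∉ D
  gam : GamOK A c γ n R
  far : FarR D P (A :: L) R
  req : ∀ r < M, ReqOK A γ n (rq r)
  cmp : ∀ r < M, ∀ r' < M, r ≠ r' → ReqCompat A (rq r) (rq r')
  adj : ∀ v ∈ D, (G.Adj y v ↔ v ∈ A.S ∨ (v ∈ A.K ∧ ∃ j < n, γ j = A.col v))
  len : ¬ ph y → A.q.length + 2 + 2 * n ≤ 2 * k - 1

end Pool.Agent.BN
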