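import Mathlib
import Pool.Agent.Lib_helper30.BN.Defs
import Pool.Agent.Lib_helper32.EPG.Top
import Pool.Agent.Lib_helper32.EPG.Poly
set_option autoImplicit false

/-! Definitions for the induction along a simple k-tree -/

namespace Pool.Agent.BN
open Act

/-- the graph `G` together with `k` isolated auxiliary vertices -/
def extG {n : ℕ} (G : SimpleGraph (Fin n)) (k : ℕ) : SimpleGraph (Fin n ⊕ Fin k) where
  Adj u v := ∃ a b, u = Sum.inl a ∧ v = Sum.inl b ∧ G.Adj a b
  symm := ⟨fun _ _ ⟨a, b, hu, hv, h⟩ => ⟨b, a, hv, hu, h.symm⟩⟩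
  loopless := ⟨fun _ ⟨a, b, hu, hv, h⟩ => by
    have : a = b := Sum.inl_injective (hu.symm.trans hv)
    exact h.ne this⟩

/-- auxiliary vertices -/
def aux {n k : ℕ} (v : Fin n ⊕ Fin k) : Prop := ∃ j, v = Sum.inr j

/-- the vertices drawn after stage `j`: all auxiliary ones and the first `j` real ones -/
def Dset (k n : ℕ) (j : ℕ) : Finset (Fin n ⊕ Fin k) :=
  Finset.univ.image Sum.inr ∪ (Finset.univ.filter (fun i : Fin n => i.val < j)).image Sum.inl

/-- the clique used at stage `j ≤ k` -/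
def Kset (k n : ℕ) (j : ℕ) : Finset (Fin n ⊕ Fin k) :=
  (Finset.univ.filter (fun i : Fin k => j ≤ i.val)).image Sum.inr ∪
    (Finset.univ.filter (fun i : Fin n => i.val < j)).image Sum.inl

/-- a drawing of the first `j` vertices with windows for all unused cliques -/
def Stage {n : ℕ} (G H : SimpleGraph (Fin n)) (k : ℕ) (j : ℕ) : Prop :=
  ∃ (P : Fin n ⊕ Fin k → List Pt) (L : List (Act (Fin n ⊕ Fin k))),
      Geo (extG G k) aux k (Dset k n j) P L ∧ (∀ B ∈ L, B.Full) ∧
      ∀ C : Finset (Fin n), C.card = k → H.IsClique (C : Set (Fin n)) → (∀ w ∈ C, w.val < j) →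
        (∀ i : Fin n, k < i.val → i.val < j → EPG.back H i ≠ C) →
        C.image Sum.inl ∈ L.map Act.K

end Pool.Agent.BN
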