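import Mathlib
import Pool.Agent.Lib_helper30.BN.P.H6
import Pool.Agent.Lib_helper30.BN.P.H7
import Pool.Agent.Lib_helper30.BN.P.J1
import Pool.Agent.Lib_helper32.EPG.Disc
set_option autoImplicit false

namespace Pool.Agent.BN

theorem main (k : ℕ) (hk : 8 ≤ k) {V : Type} (G : SimpleGraph V) (k' : ℕ) (hk' : k' ≤ k)
    (h : EPG.StwLE k' G) : EPG.BendLE G (2 * k - 3) := by
  have h2 : EPG.StwLE k G := by
    obtain ⟨d, rfl⟩ := Nat.exists_eq_add_of_le hk'
    clear hk' hk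
    induction d with
    | zero => exact h
    | succ d ih => exact stw_succ G (k' + d) ih
  refine EPG.reduction (fun n T hT G' hG' => ?_) G h2
  obtain ⟨P, hP, hT2⟩ := tree_draw G' T k hk hT hG'
  have hs := fun v => simple_of_mono (P v) (hP v).1 (hP v).2.1
  choose C hC using hs
  refine ⟨C, fun v => (hC v).1, fun v => (hC v).2.1,
    fun v => by have := (hC v).2.2.1; have := (hP v).2.2; omega, fun v w hvw => ?_⟩
  rw [← hT2 v w hvw]
  unfold EPG.Touch Touch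
  rw [(hC v).2.2.2.1, (hC v).2.2.2.2, (hC w).2.2.2.1, (hC w).2.2.2.2]
  constructor
  · rintro ⟨x, y, h | h⟩
    · exact Or.inl ⟨(x, y), h⟩
    · exact Or.inr ⟨(x, y), h⟩
  · rintro (⟨⟨x, y⟩, h⟩ | ⟨⟨x, y⟩, h⟩)
    · exact ⟨x, y, Or.inl h⟩
    · exact ⟨x, y, Or.inr h⟩

end Pool.Agent.BN
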